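import Pool.Agent.Y462.AR.Tool
import Pool.Agent.Y547.GE.PP

/-!
# Artin groups: the free group of rank two
-/

set_option autoImplicit false

namespace Pool.Agent.Y435.AR

open Pool.Agent.Y462.AR
open Pool.Agent.Y462.PA (Am)

/-- the powers of the first map -/
def SA : Multiplicative ℤ →* Equiv.Perm (ℤ × ℤ) where
  toFun n :=
    { toFun := fun v => (v.1 + Multiplicative.toAdd n * v.2, v.2)
      invFun := fun v => (v.1 - Multiplicative.toAdd n * v.2, v.2)
      left_inv := fun v => by simp
      right_inv := fun v => by simp }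
  map_one' := by
    ext v <;> simp
  map_mul' m n := by
    ext v
    · simp only [toAdd_mul, Equiv.coe_fn_mk, Equiv.Perm.mul_apply]
      ring
    · simp

/-- the powers of the second map -/
def SB : Multiplicative ℤ →* Equiv.Perm (ℤ × ℤ) where
  toFun n :=
    { toFun := fun v => (v.1, v.2 - 4 * Multiplicative.toAdd n * v.1)
      invFun := fun v => (v.1, v.2 + 4 * Multiplicative.toAdd n * v.1)
      left_inv := fun v => by simp
      right_inv := fun v => by simp }
  map_one' := by
    ext v <;> simp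
  map_mul' m n := by
    ext v
    · simp
    · simp only [toAdd_mul, Equiv.coe_fn_mk, Equiv.Perm.mul_apply]
      ring

theorem SA_apply (n : Multiplicative ℤ) (v : ℤ × ℤ) :
    SA n v = (v.1 + Multiplicative.toAdd n * v.2, v.2) := rfl

theorem SB_apply (n : Multiplicative ℤ) (v : ℤ × ℤ) :
    SB n v = (v.1, v.2 - 4 * Multiplicative.toAdd n * v.1) := rfl

theorem estA {n p q : ℤ} (hn : n ≠ 0) (h : 2 * |p| < |q|) : |q| < 2 * |p + n * q| := by
  have h1 : |n * q| ≤ |p + n * q| + |p| := by
    have e : n * q = (p + n * q) - p := by ring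
    calc |n * q| = |(p + n * q) - p| := by rw [← e]
      _ ≤ |p + n * q| + |p| := abs_sub _ _
  have h2 : |q| ≤ |n * q| := by
    rw [abs_mul]
    exact le_mul_of_one_le_left (abs_nonneg _) (Int.one_le_abs hn)
  linarith

theorem estB {n p q : ℤ} (hn : n ≠ 0) (h : |q| < 2 * |p|) :
    2 * |p| < |q - 4 * n * p| ∧ |q| < |q - 4 * n * p| := by
  have h1 : |4 * n * p| ≤ |q| + |q - 4 * n * p| := by
    have e : 4 * n * p = q - (q - 4 * n * p) := by ring
    calc |4 * n * p| = |q - (q - 4 * n * p)| := by rw [← e]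
      _ ≤ |q| + |q - 4 * n * p| := abs_sub _ _
  have h2 : 4 * |p| ≤ |4 * n * p| := by
    rw [abs_mul, abs_mul]
    have h3 := Int.one_le_abs hn
    have h4 := abs_nonneg p
    have h5 : |(4 : ℤ)| = 4 := rfl
    rw [h5]
    nlinarith
  constructor <;> linarith

theorem t_dih0 : S_DIH 0 := by
  intro b
  obtain ⟨φ, hφ⟩ := t_lift Bool (Equiv.Perm (ℤ × ℤ)) (fun _ _ => 0)
    (fun c => if c = b then SA (Multiplicative.ofAdd 1) else SB (Multiplicative.ofAdd 1))
    (fun s t h => absurd rfl h)
  have hb : φ (gen _ b) = SA (Multiplicative.ofAdd 1) := by rw [hφ, if_pos rfl]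
  have hc : φ (gen _ (!b)) = SB (Multiplicative.ofAdd 1) := by
    rw [hφ, if_neg (by cases b <;> decide)]
  refine ⟨φ, ?_, ?_, ?_⟩
  · intro x y
    rw [hb, SA_apply]
    simp
  · intro x y
    rw [hc, SB_apply]
    simp [kap]
  · intro len _ g hg _
    let α : PUnit.{1} →* Multiplicative ℤ := 1
    let θ : Am α α →* D 0 := Pool.Agent.Y462.PA.Am.lift α α
      (zpowersHom (D 0) (gen (fun _ _ => 0) b)) (zpowersHom (D 0) (gen (fun _ _ => 0) (!b)))
      (fun c => by simp [α])
    have hl : ∀ n : Multiplicative ℤ, φ (θ (Pool.Agent.Y462.PA.Am.inl α α n)) = SA n := by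
      have h1 : (φ.comp θ).comp (Pool.Agent.Y462.PA.Am.inl α α) = SA := by
        apply MonoidHom.ext_mint
        simp only [MonoidHom.comp_apply, θ, Pool.Agent.Y462.PA.Am.lift_inl, zpowersHom_apply,
          toAdd_ofAdd, zpow_one]
        exact hb
      intro n
      rw [← h1]
      rfl
    have hr : ∀ n : Multiplicative ℤ, φ (θ (Pool.Agent.Y462.PA.Am.inr α α n)) = SB n := by
      have h1 : (φ.comp θ).comp (Pool.Agent.Y462.PA.Am.inr α α) = SB := by
        apply MonoidHom.ext_mint
        simp only [MonoidHom.comp_apply, θ, Pool.Agent.Y462.PA.Am.lift_inr, zpowersHom_apply,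
          toAdd_ofAdd, zpow_one]
        exact hc
      intro n
      rw [← h1]
      rfl
    have hθ : Function.Surjective θ := by
      intro g
      have h1 : g ∈ θ.range := by
        apply mem_of_gen
        intro s
        by_cases hs : s = b
        · refine ⟨Pool.Agent.Y462.PA.Am.inl α α (Multiplicative.ofAdd 1), ?_⟩
          simp only [θ, Pool.Agent.Y462.PA.Am.lift_inl, zpowersHom_apply, toAdd_ofAdd, zpow_one]
          rw [hs]
        · refine ⟨Pool.Agent.Y462.PA.Am.inr α α (Multiplicative.ofAdd 1), ?_⟩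
          simp only [θ, Pool.Agent.Y462.PA.Am.lift_inr, zpowersHom_apply, toAdd_ofAdd, zpow_one]
          have : s = !b := by
            revert hs
            cases s <;> cases b <;> simp
          rw [this]
      exact h1
    have hne : ∀ n : Multiplicative ℤ, n ∉ α.range → Multiplicative.toAdd n ≠ 0 := by
      intro n hn h0
      apply hn
      refine ⟨PUnit.unit, ?_⟩
      have h1 : n = 1 := h0
      rw [h1]
      rfl
    have hα : ∀ c : PUnit.{1}, Pool.Agent.Y462.PA.Am.inl α α (α c) = 1 := by
      intro c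
      have : α c = 1 := rfl
      rw [this, map_one]
    have hinj : Function.Injective (φ.comp θ) := by
      refine Pool.Agent.Y547.GE.t_pp PUnit (Multiplicative ℤ) (Multiplicative ℤ) (ℤ × ℤ) α α
        (φ.comp θ) {v | |v.2| < 2 * |v.1|} {v | 2 * |v.1| < |v.2|}
        (fun v => ((v.2.natAbs : ℕ) : WithBot ℕ)) ?_ ⟨(1, 0), ?_⟩ ⟨(0, 1), ?_⟩ ?_ ?_ ?_ ?_ ?_
      · rw [Set.disjoint_left]
        intro v h1 h2
        have h3 : |v.2| < 2 * |v.1| := h1
        have h4 : 2 * |v.1| < |v.2| := h2
        exact lt_asymm h3 h4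
      · show |(0 : ℤ)| < 2 * |(1 : ℤ)|
        simp
      · show 2 * |(0 : ℤ)| < |(1 : ℤ)|
        simp
      · intro a ha v hv
        rw [MonoidHom.comp_apply, hl, SA_apply]
        exact ⟨estA (hne a ha) hv, le_rfl⟩
      · intro a ha v hv
        rw [MonoidHom.comp_apply, hr, SB_apply]
        obtain ⟨h1, h2⟩ := estB (hne a ha) hv
        refine ⟨h1, ?_⟩
        have h3 : v.2.natAbs < (v.2 - 4 * Multiplicative.toAdd a * v.1).natAbs := by
          rw [Int.abs_eq_natAbs, Int.abs_eq_natAbs] at h2
          exact_mod_cast h2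
        exact WithBot.coe_lt_coe.2 h3
      · intro c v hv
        rw [hα, map_one]
        exact ⟨hv, rfl⟩
      · intro c v hv
        rw [hα, map_one]
        exact ⟨hv, rfl⟩
      · intro c _
        rfl
    obtain ⟨h, rfl⟩ := hθ g
    have h1 : (φ.comp θ) h = (φ.comp θ) 1 := by
      rw [map_one]
      exact hg
    rw [hinj h1, map_one]

end Pool.Agent.Y435.AR
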